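import Pool.Agent.H57.Lots2

set_option autoImplicit false

namespace Pool.Agent.Results.MP_4e3057_lc.NoUniversal

open Cardinal

/-- An injective, order-preserving map that is continuous for the open interval topologies. -/
def LotsEmb {A B : Type} [LinearOrder A] [LinearOrder B] (f : A → B) : Prop :=
  Function.Injective f ∧ Monotone f ∧ @Continuous A B (Preorder.topology A) (Preorder.topology B) f

/-- `U` is a universal LOTS at the cardinal `k`. -/
def IsUniversal (k : Cardinal.{0}) (U : Type) [LinearOrder U] : Prop :=
  #U = k ∧ ∀ (L : Type) [LinearOrder L], #L = k → ∃ f : L → U, LotsEmb f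

theorem result (k : Cardinal.{0}) (hk : ℵ₀ < k) (U : Type) [LinearOrder U] :
    ¬ IsUniversal k U := by
  rintro ⟨rfl, h⟩
  obtain ⟨L, _, hL, hL'⟩ := Pool.Agent.H57.Lots.exists_not_emb U hk
  obtain ⟨f, h1, h2, h3⟩ := h L hL
  letI : TopologicalSpace L := Preorder.topology L
  letI : TopologicalSpace U := Preorder.topology U
  haveI : OrderTopology L := ⟨rfl⟩
  haveI : OrderTopology U := ⟨rfl⟩
  exact hL' f (Pool.Agent.H57.Lots.emb_of_continuous (h2.strictMono_of_injective h1) h3)

end Pool.Agent.Results.MP_4e3057_lc.NoUniversal
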